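import Pool.Agent.Lib.MP_8cb124_co.Main

open Finset PowerSeries
open Pool.Agent.Lib.MP_8cb124_co

namespace Pool.Agent.FS.FourHole

/-- linear functional on the first four coefficients -/
noncomputable def Lam (a b c d : ℚ) (f : ℚ⟦X⟧) : ℚ :=
  a * coeff 1 f + b * coeff 2 f + c * coeff 3 f + d * coeff 4 f

lemma Lam_add (a b c d : ℚ) (f g : ℚ⟦X⟧) : Lam a b c d (f + g) = Lam a b c d f + Lam a b c d g := by
  simp only [Lam, map_add]; ring

lemma Lam_sub (a b c d : ℚ) (f g : ℚ⟦X⟧) : Lam a b c d (f - g) = Lam a b c d f - Lam a b c d g := by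
  simp only [Lam, map_sub]; ring

lemma Lam_nat (a b c d : ℚ) (k : ℕ) (f : ℚ⟦X⟧) :
    Lam a b c d ((k : ℚ⟦X⟧) * f) = k * Lam a b c d f := by
  have h : (k : ℚ⟦X⟧) = C (k : ℚ) := by simp
  simp only [Lam, h, coeff_C_mul]; ring

lemma Lam_zero (a b c d : ℚ) : Lam a b c d 0 = 0 := by simp [Lam]

lemma Lam_mob {α : Type} [DecidableEq α] (a b c d : ℚ) (A : Finset α) :
    ∀ f : Finset α → ℚ⟦X⟧, mob (fun B => Lam a b c d (f B)) A = Lam a b c d (mob f A) := by
  induction A using Finset.induction_on with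
  | empty => intro f; simp [mob_empty]
  | insert x A hx ih =>
    intro f
    rw [mob_insert _ hx, mob_insert _ hx, ← ih]
    exact mob_congr fun B _ => by rw [Lam_sub]

lemma Lam_dvd5 (a b c d : ℚ) {f : ℚ⟦X⟧} (h : X ^ 5 ∣ f) : Lam a b c d f = 0 := by
  rw [X_pow_dvd_iff] at h
  simp [Lam, h 1, h 2, h 3, h 4]

lemma Lam_dvd4 (a b c : ℚ) {f : ℚ⟦X⟧} (h : X ^ 4 ∣ f) : Lam a b c 0 f = 0 := by
  rw [X_pow_dvd_iff] at h
  simp [Lam, h 1, h 2, h 3]

lemma LD_coeff (Z : ℚ⟦X⟧) (h0 : coeff 0 Z = 1) :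
    coeff 1 (LD Z) = coeff 1 Z ∧ coeff 2 (LD Z) = 2 * coeff 2 Z - coeff 1 Z ^ 2 ∧
    coeff 3 (LD Z) = 3 * coeff 3 Z - 3 * coeff 1 Z * coeff 2 Z + coeff 1 Z ^ 3 ∧
    coeff 4 (LD Z) = 4 * coeff 4 Z - 4 * coeff 1 Z * coeff 3 Z - 2 * coeff 2 Z ^ 2 +
      4 * coeff 1 Z ^ 2 * coeff 2 Z - coeff 1 Z ^ 4 := by
  have hc : constantCoeff Z ≠ 0 := by
    rw [← coeff_zero_eq_constantCoeff_apply, h0]; exact one_ne_zero
  have h : LD Z * Z = th Z := by
    rw [LD, mul_assoc, PowerSeries.inv_mul_cancel Z hc, mul_one]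
  have t0 : coeff 0 (th Z) = 0 := by simp [th]
  have ts : ∀ k : ℕ, coeff (k + 1) (th Z) = coeff (k + 1) Z * (k + 1) := fun k => by
    rw [th, coeff_succ_X_mul, coeff_derivative]
  have e0 := congrArg (coeff 0) h
  have e1 := congrArg (coeff 1) h
  have e2 := congrArg (coeff 2) h
  have e3 := congrArg (coeff 3) h
  have e4 := congrArg (coeff 4) h
  rw [t0] at e0
  rw [ts 0] at e1
  rw [ts 1] at e2
  rw [ts 2] at e3
  rw [ts 3] at e4
  simp only [coeff_mul, Finset.Nat.sum_antidiagonal_eq_sum_range_succ_mk, sum_range_succ,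
    sum_range_zero, zero_add] at e0 e1 e2 e3 e4
  norm_num [h0] at e0 e1 e2 e3 e4
  have e0' : coeff 0 (LD Z) = 0 := by simpa using e0
  have q1 : coeff 1 (LD Z) = coeff 1 Z := by
    simp only [← coeff_zero_eq_constantCoeff_apply, e0', h0] at e1; linarith
  simp only [← coeff_zero_eq_constantCoeff_apply, e0', h0] at e2 e3 e4
  have q2 : coeff 2 (LD Z) = 2 * coeff 2 Z - coeff 1 Z ^ 2 := by
    rw [q1] at e2; linarith
  have q3 : coeff 3 (LD Z) = 3 * coeff 3 Z - 3 * coeff 1 Z * coeff 2 Z + coeff 1 Z ^ 3 := by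
    rw [q1, q2] at e3; linarith
  refine ⟨q1, q2, q3, ?_⟩
  rw [q1, q2, q3] at e4; linarith

lemma Lam_poly (a b c d : ℚ) (z1 z2 z3 z4 : ℤ) (g Z : ℚ⟦X⟧)
    (hZ : Z = 1 + (z1 : ℚ⟦X⟧) * X + (z2 : ℚ⟦X⟧) * X ^ 2 + (z3 : ℚ⟦X⟧) * X ^ 3 +
      (z4 : ℚ⟦X⟧) * X ^ 4 + X ^ 5 * g) :
    Lam a b c d (LD Z) = a * z1 + b * (2 * z2 - z1 ^ 2) + c * (3 * z3 - 3 * z1 * z2 + z1 ^ 3) +
      d * (4 * z4 - 4 * z1 * z3 - 2 * z2 ^ 2 + 4 * z1 ^ 2 * z2 - z1 ^ 4) := by
  have hk : ∀ k < 5, coeff k (X ^ 5 * g) = 0 := fun k hk =>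
    X_pow_dvd_iff.mp (dvd_mul_right _ g) k hk
  have hi : ∀ z : ℤ, (z : ℚ⟦X⟧) = C (z : ℚ) := fun z => by simp
  have c0 : coeff 0 Z = 1 := by
    rw [hZ]; simp only [map_add, hi, coeff_C_mul, hk 0 (by omega), coeff_X_pow, coeff_X, coeff_one]
    norm_num
  have c1 : coeff 1 Z = z1 := by
    rw [hZ]; simp only [map_add, hi, coeff_C_mul, hk 1 (by omega), coeff_X_pow, coeff_X, coeff_one]
    norm_num
  have c2 : coeff 2 Z = z2 := by
    rw [hZ]; simp only [map_add, hi, coeff_C_mul, hk 2 (by omega), coeff_X_pow, coeff_X, coeff_one]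
    norm_num
  have c3 : coeff 3 Z = z3 := by
    rw [hZ]; simp only [map_add, hi, coeff_C_mul, hk 3 (by omega), coeff_X_pow, coeff_X, coeff_one]
    norm_num
  have c4 : coeff 4 Z = z4 := by
    rw [hZ]; simp only [map_add, hi, coeff_C_mul, hk 4 (by omega), coeff_X_pow, coeff_X, coeff_one]
    norm_num
  obtain ⟨q1, q2, q3, q4⟩ := LD_coeff Z c0
  rw [Lam, q1, q2, q3, q4, c1, c2, c3, c4]

lemma Lam_lam (a b c d : ℚ) (k : ℕ) :
    Lam a b c d (lam k) = -(a * k + b * k ^ 2 + c * k ^ 3 + d * k ^ 4) := by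
  rw [lam, Lam_poly a b c d (-k) 0 0 0 0 _ (by push_cast; ring)]
  push_cast; ring

variable {V : Type} [Fintype V] [DecidableEq V]

/-- twins: deletion and contraction of a non-edge -/
lemma Np_twin (G G' : SimpleGraph V) [DecidableRel G.Adj] [DecidableRel G'.Adj] {S : Finset V}
    {u v : V} (hu : u ∈ S) (hv : v ∈ S) (huv : u ≠ v) (hn : ¬ G.Adj u v)
    (hG' : ∀ a b, G'.Adj a b ↔ G.Adj a b ∨ (a = u ∧ b = v) ∨ (a = v ∧ b = u))
    (ht : ∀ y ∈ S, G.Adj v y → G.Adj u y) (x : ℕ) :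
    x * Np (EE G S) x = x * Np (EE G' S) x + Np (EE G (S.erase v)) x := by
  have h1 : Np (EE G S) x = Np (EE G' S) x +
      (univ.filter fun σ : V → Fin x => (∀ e ∈ EE G (S.erase v), σ e.1 ≠ σ e.2) ∧ σ v = σ u).card := by
    rw [Np, Np, ← card_filter_add_card_filter_not (s := univ.filter _) fun σ : V → Fin x => σ v ≠ σ u,
      filter_filter, filter_filter]
    congr 2
    · ext σ
      simp only [mem_filter, mem_univ, true_and, mem_EE, hG']
      constructor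
      · rintro ⟨h1, h2⟩ ⟨a, b⟩ ⟨ha, hb, h | ⟨rfl, rfl⟩ | ⟨rfl, rfl⟩⟩
        exacts [h1 (a, b) ⟨ha, hb, h⟩, h2.symm, h2]
      · intro h
        exact ⟨fun e he => h e ⟨he.1, he.2.1, Or.inl he.2.2⟩,
          h (v, u) ⟨hv, hu, Or.inr (Or.inr ⟨rfl, rfl⟩)⟩⟩
    · ext σ
      simp only [mem_filter, mem_univ, true_and, mem_EE, mem_erase, not_not]
      constructor
      · rintro ⟨h1, h2⟩
        exact ⟨fun e he => h1 e ⟨he.1.2, he.2.1.2, he.2.2⟩, h2⟩
      · rintro ⟨h1, h2⟩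
        refine ⟨fun ⟨a, b⟩ ⟨ha, hb, hab⟩ => ?_, h2⟩
        have key : ∀ y ∈ S, G.Adj v y → σ v ≠ σ y := fun y hy hvy => by
          rw [h2]
          exact h1 (u, y) ⟨⟨huv, hu⟩, ⟨hvy.ne', hy⟩, ht y hy hvy⟩
        by_cases hav : a = v
        · subst hav; exact key b hb hab
        · by_cases hbv : b = v
          · subst hbv; exact (key a ha hab.symm).symm
          · exact h1 (a, b) ⟨⟨hav, ha⟩, ⟨hbv, hb⟩, hab⟩
  have h2 : Np (EE G (S.erase v)) x = x *
      (univ.filter fun σ : V → Fin x => (∀ e ∈ EE G (S.erase v), σ e.1 ≠ σ e.2) ∧ σ v = σ u).card := by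
    have hup : ∀ (σ : V → Fin x) (c : Fin x), (∀ e ∈ EE G (S.erase v), σ e.1 ≠ σ e.2) →
        ∀ e ∈ EE G (S.erase v), Function.update σ v c e.1 ≠ Function.update σ v c e.2 := by
      intro σ c h e he
      have he' := (mem_EE G).mp he
      rw [Function.update_of_ne (mem_erase.mp he'.1).1, Function.update_of_ne (mem_erase.mp he'.2.1).1]
      exact h e he
    have hx : ∀ m : ℕ, x * m = (univ : Finset (Fin x)).card * m := fun m => by
      rw [card_univ, Fintype.card_fin]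
    rw [hx, ← card_product, Np]
    refine card_nbij' (fun σ => (σ v, Function.update σ v (σ u)))
      (fun p => Function.update p.2 v p.1) ?_ ?_ ?_ ?_
    · intro σ hσ
      simp only [coe_filter, mem_univ, true_and, Set.mem_setOf_eq, coe_product, Set.mem_prod,
        coe_univ, Set.mem_univ] at hσ ⊢
      exact ⟨hup σ _ hσ, by rw [Function.update_self, Function.update_of_ne huv]⟩
    · intro p hp
      simp only [coe_filter, mem_univ, true_and, Set.mem_setOf_eq, coe_product, Set.mem_prod,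
        coe_univ, Set.mem_univ] at hp ⊢
      exact hup _ _ hp.1
    · intro σ _
      simp
    · intro p hp
      simp only [coe_filter, mem_univ, true_and, Set.mem_setOf_eq, coe_product, Set.mem_prod,
        coe_univ, Set.mem_univ] at hp
      refine Prod.ext (by simp) ?_
      simp only [Function.update_idem, Function.update_of_ne huv]
      rw [← hp.2, Function.update_eq_self]
  rw [h1, mul_add, ← h2]

lemma ZS_twin (G G' : SimpleGraph V) [DecidableRel G.Adj] [DecidableRel G'.Adj] {S : Finset V}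
    {u v : V} (hu : u ∈ S) (hv : v ∈ S) (huv : u ≠ v) (hn : ¬ G.Adj u v)
    (hG' : ∀ a b, G'.Adj a b ↔ G.Adj a b ∨ (a = u ∧ b = v) ∨ (a = v ∧ b = u))
    (ht : ∀ y ∈ S, G.Adj v y → G.Adj u y) :
    ZS (EE G S) = ZS (EE G' S) + X * ZS (EE G (S.erase v)) := by
  have h : Zp (EE G S) = Zp (EE G' S) + Polynomial.X * Zp (EE G (S.erase v)) := by
    refine poly_ext fun x hx => ?_
    have h1 := congrArg (Nat.cast : ℕ → ℚ) (Np_twin G G' hu hv huv hn hG' ht x)
    push_cast at h1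
    rw [Np_eq _ hx, Np_eq _ hx, Np_eq _ hx] at h1
    have hx' : (x : ℚ) ≠ 0 := by exact_mod_cast hx.ne'
    simp only [Polynomial.eval_mul, Polynomial.eval_add, Polynomial.eval_X]
    refine mul_left_cancel₀ (pow_ne_zero (Fintype.card V + 1) hx') ?_
    have h2 : (x : ℚ) * (1 / x) = 1 := mul_one_div_cancel hx'
    linear_combination h1 - ((x : ℚ) ^ Fintype.card V *
      (Zp (EE G (S.erase v))).eval (1 / x : ℚ)) * h2
  rw [ZS, ZS, ZS, h]
  simp only [← Polynomial.coeToPowerSeries.ringHom_apply, map_mul, map_add]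
  simp

lemma ZS_ins (G : SimpleGraph V) [DecidableRel G.Adj] {S : Finset V} {v : V} (hv : v ∉ S)
    (D : Finset V) (h0 : ∀ y ∈ D, y ∈ S) (h1 : ∀ y ∈ S, G.Adj v y ↔ y ∈ D)
    (h2 : ∀ y ∈ D, ∀ z ∈ D, y ≠ z → G.Adj y z) (k : ℕ) (hk : D.card = k) :
    ZS (EE G (insert v S)) = ZS (EE G S) * (1 - (k : ℚ⟦X⟧) * X) := by
  have hm : ∀ y ∈ insert v S, G.Adj v y → y ∈ D := fun y hy h =>
    (h1 y ((mem_insert.mp hy).resolve_left h.ne')).mp h
  have hs : Simp G (insert v S) v :=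
    ⟨mem_insert_self _ _, fun a ha b hb ha' hb' hab => h2 a (hm a ha ha') b (hm b hb hb') hab⟩
  have hN : NS G (insert v S) v = D := by
    ext y
    rw [mem_NS]
    exact ⟨fun h => hm y h.1 h.2, fun h => ⟨mem_insert_of_mem (h0 y h), (h1 y (h0 y h)).mpr h⟩⟩
  rw [ZS, ZS, Zp_erase G hs, erase_insert hv, hN, hk]
  simp only [← Polynomial.coeToPowerSeries.ringHom_apply, map_mul, map_sub, map_one, map_natCast]
  simp

lemma ZS_nil (G : SimpleGraph V) [DecidableRel G.Adj] : ZS (EE G (∅ : Finset V)) = 1 := by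
  simp [EE, ZS_eq, rk_empty]

end Pool.Agent.FS.FourHole
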