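import Pool.Agent.FS.FourHole.A

open Finset PowerSeries
open Pool.Agent.Lib.MP_8cb124_co

namespace Pool.Agent.FS.FourHole

lemma mob_five {α : Type} [DecidableEq α] {f : Finset α → ℚ} {S : Finset α} (hS : S.card = 5)
    (h : ∀ B ⊆ S, B.card < 4 → f B = 0) : mob f S = f S - ∑ y ∈ S, f (S.erase y) := by
  have h0 : ∀ j < 4, ∑ t ∈ powersetCard j S, (-1 : ℚ) ^ (S.card + t.card) * f t = 0 :=
    fun j hj => sum_eq_zero fun t ht => by
      rw [mem_powersetCard] at ht
      rw [h t ht.1 (by omega), mul_zero]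
  have h4 : powersetCard 4 S = S.image S.erase := by
    ext t
    rw [mem_powersetCard, mem_image]
    constructor
    · rintro ⟨h1, h2⟩
      obtain ⟨a, ha, rfl⟩ := exists_eq_insert_iff.mpr ⟨h1, by omega⟩
      exact ⟨a, mem_insert_self _ _, erase_insert ha⟩
    · rintro ⟨a, ha, rfl⟩
      exact ⟨erase_subset _ _, by rw [card_erase_of_mem ha, hS]⟩
  have h5 : powersetCard 5 S = {S} := by rw [← hS, powersetCard_self]
  have hr : range (S.card + 1) = range 6 := by rw [hS]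
  rw [mob, sum_powerset, hr]
  simp only [sum_range_succ, sum_range_zero, h0 0 (by omega), h0 1 (by omega), h0 2 (by omega),
    h0 3 (by omega), zero_add]
  rw [h4, h5, sum_singleton, sum_image (erase_injOn S), sum_congr rfl (g := fun y => - f (S.erase y))
    fun y hy => by rw [card_erase_of_mem hy, hS]; norm_num, sum_neg_distrib, hS]
  norm_num
  ring

variable {V : Type} [Fintype V] [DecidableEq V] (G : SimpleGraph V) [DecidableRel G.Adj]

lemma NS_lt {S : Finset V} {v : V} (hv : v ∈ S) : (NS G S v).card < S.card :=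
  card_lt_card ⟨filter_subset _ _, fun h => G.irrefl ((mem_NS G).mp (h hv)).2⟩

lemma mob_simp (a b c d : ℚ) {S : Finset V} {v : V} (h : Simp G S v)
    (hz : ∀ k, k + 1 < S.card → Lam a b c d (lam k) = 0) :
    mob (fun B => Lam a b c d (LL G B)) S = Lam a b c d (lam (NS G S v).card) := by
  have h1 : mob (fun B => Lam a b c d (LL G B)) (insert v (S.erase v)) =
      mob (fun B => Lam a b c d (lam (NS G (insert v B) v).card)) (S.erase v) := by
    rw [mob_insert _ (notMem_erase v S)]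
    refine mob_congr fun B hB => ?_
    have hv : v ∉ B := fun h => notMem_erase v S (hB h)
    have hs : insert v B ⊆ S := insert_subset h.1 (hB.trans (erase_subset _ _))
    rw [LL_erase G (S := insert v B) (v := v) ⟨mem_insert_self _ _,
      fun x hx y hy => h.2 x (hs hx) y (hs hy)⟩, erase_insert hv, Lam_add]
    ring
  rw [insert_erase h.1] at h1
  rw [h1, mob_top, insert_erase h.1]
  intro B hB hne
  refine hz _ ?_
  have hv : v ∉ B := fun h => notMem_erase v S (hB h)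
  have h2 := NS_lt G (mem_insert_self v B)
  have h3 := card_lt_card (hB.ssubset_of_ne hne)
  have h4 := card_erase_add_one h.1
  rw [card_insert_of_notMem hv] at h2
  omega

lemma LL_nil : LL G (∅ : Finset V) = 0 := by rw [LL, ZS_nil, LD_one]

lemma val_SE (a b c d : ℚ) {S : Finset V} (h : SE G S)
    (hz : ∀ k, k < S.card → Lam a b c d (lam k) = 0) : Lam a b c d (LL G S) = 0 := by
  rw [← mob_inv S fun B => Lam a b c d (LL G B)]
  refine sum_eq_zero fun B hB => ?_
  rw [mem_powerset] at hB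
  have h1 := card_le_card hB
  rcases B.eq_empty_or_nonempty with rfl | hne
  · rw [mob_empty, LL_nil, Lam_zero]
  · obtain ⟨v, hv⟩ := h B hB hne
    rw [mob_simp G a b c d hv fun k hk => hz k (by omega)]
    exact hz _ ((NS_lt G hv.1).trans_le h1)

/-- fourth order functional -/
noncomputable def g4 (S : Finset V) : ℚ := Lam (-6) 11 (-6) 1 (LL G S)

lemma p4_zero (k : ℕ) (hk : k < 4) : Lam (-6) 11 (-6) 1 (lam k) = 0 := by
  rw [Lam_lam]; interval_cases k <;> norm_num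

lemma p4_le (k : ℕ) (hk : k < 5) : Lam (-6) 11 (-6) 1 (lam k) ≤ 0 := by
  rw [Lam_lam]; interval_cases k <;> norm_num

lemma g4_SE {S : Finset V} (h : SE G S) (h4 : S.card ≤ 4) : g4 G S = 0 :=
  val_SE G _ _ _ _ h fun k hk => p4_zero k (by omega)

lemma g4_small {S : Finset V} (h : S.card < 4) : g4 G S = 0 := g4_SE G (small_SE S h) h.le

lemma mob_g4_four {S : Finset V} (h : S.card ≤ 4) : mob (g4 G) S = g4 G S :=
  mob_top fun B hB hne => g4_small G ((card_lt_card (hB.ssubset_of_ne hne)).trans_le h)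

lemma g4_simp {S : Finset V} {v : V} (h : Simp G S v) (h4 : S.card = 4) : g4 G S = 0 := by
  rw [← mob_g4_four G h4.le]
  exact (mob_simp G _ _ _ _ h fun k hk => p4_zero k (by omega)).trans
    (p4_zero _ ((NS_lt G h.1).trans_eq h4))

lemma mob_g4_simp {S : Finset V} {v : V} (h : Simp G S v) (h5 : S.card = 5) : mob (g4 G) S ≤ 0 :=
  (mob_simp G _ _ _ _ h fun k hk => p4_zero k (by omega)).trans_le
    (p4_le _ ((NS_lt G h.1).trans_eq h5))

lemma SE_four {S : Finset V} (h : ¬ Hole G S) (h4 : S.card ≤ 4) : SE G S :=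
  SE_of_holefree fun T hT h1 => h (by
    have := h1.four
    rwa [← eq_of_subset_of_card_le hT (by omega)])

lemma g4_hole4 {S : Finset V} (h : Hole G S) (h4 : S.card = 4) : g4 G S = -6 := by
  obtain ⟨l, c, h1, rfl⟩ := h
  rw [h1.card] at h4
  subst h4
  rw [g4, LL, Lam_poly _ _ _ _ (-4) 6 (-3) 0 0 _ (by rw [h1.ZS]; push_cast; ring)]
  norm_num

lemma g4_hole5 {S : Finset V} (h : Hole G S) (h4 : S.card = 5) : g4 G S = -4 := by
  obtain ⟨l, c, h1, rfl⟩ := h
  rw [h1.card] at h4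
  subst h4
  rw [g4, LL, Lam_poly _ _ _ _ (-5) 10 (-10) 4 0 _ (by rw [h1.ZS]; push_cast; ring)]
  norm_num

lemma step {K T : Finset V} {w x : V} (hx : x ∉ T) (hKT : ∀ y ∈ K, y ∈ T) (hw : w ∈ T)
    (hwK : w ∉ K) (hK : ∀ y ∈ K, ∀ z ∈ K, y ≠ z → G.Adj y z) (hKw : ∀ y ∈ K, G.Adj w y)
    (hKx : ∀ y ∈ K, G.Adj x y) (hT : ∀ y ∈ T, G.Adj x y → y ∈ K ∨ y = w) (a : ℕ)
    (ha : (G.Adj x w ∧ a = 1) ∨ (¬ G.Adj x w ∧ a = 0)) :
    ZS (EE G (insert x T)) = ZS (EE G T) * (1 - ((K.card + a : ℕ) : ℚ⟦X⟧) * X) := by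
  rcases ha with ⟨h1, rfl⟩ | ⟨h1, rfl⟩
  · refine ZS_ins G hx (insert w K) ?_ ?_ ?_ _ (card_insert_of_notMem hwK)
    · intro y hy
      rcases mem_insert.mp hy with rfl | hy
      exacts [hw, hKT y hy]
    · intro y hy
      rw [mem_insert]
      refine ⟨fun h => (hT y hy h).symm, ?_⟩
      rintro (rfl | h)
      exacts [h1, hKx y h]
    · intro y hy z hz hyz
      rcases mem_insert.mp hy with h2 | h2 <;> rcases mem_insert.mp hz with h3 | h3
      · exact absurd (h2.trans h3.symm) hyz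
      · rw [h2]; exact hKw z h3
      · rw [h3]; exact (hKw y h2).symm
      · exact hK y h2 z h3 hyz
  · refine ZS_ins G hx K hKT ?_ hK _ rfl
    intro y hy
    exact ⟨fun h => (hT y hy h).resolve_right fun h2 => h1 (h2 ▸ h), hKx y⟩

lemma cone {K : Finset V} {w q s : V} (hw : w ∉ K) (hq : q ∉ K) (hs : s ∉ K) (hqw : q ≠ w)
    (hsw : s ≠ w) (hsq : s ≠ q) (hK : ∀ y ∈ K, ∀ z ∈ K, y ≠ z → G.Adj y z)
    (hKw : ∀ y ∈ K, G.Adj w y) (hKq : ∀ y ∈ K, G.Adj q y) (hKs : ∀ y ∈ K, G.Adj s y)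
    (hn : ¬ G.Adj s q) (a b : ℕ) (ha : (G.Adj q w ∧ a = 1) ∨ (¬ G.Adj q w ∧ a = 0))
    (hb : (G.Adj s w ∧ b = 1) ∨ (¬ G.Adj s w ∧ b = 0)) :
    ZS (EE G (insert s (insert q (insert w K)))) = ZS (EE G K) * (1 - (K.card : ℚ⟦X⟧) * X) *
      (1 - ((K.card + a : ℕ) : ℚ⟦X⟧) * X) * (1 - ((K.card + b : ℕ) : ℚ⟦X⟧) * X) := by
  rw [step G (K := K) (w := w) (by simp [hs, hsw, hsq]) (fun y hy => by simp [hy]) (by simp) hw hK
      hKw hKs (fun y hy h => by
        simp only [mem_insert] at hy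
        rcases hy with rfl | rfl | hy
        exacts [absurd h hn, Or.inr rfl, Or.inl hy]) b hb,
    step G (K := K) (w := w) (by simp [hq, hqw]) (fun y hy => by simp [hy]) (by simp) hw hK
      hKw hKq (fun y hy _ => (mem_insert.mp hy).symm) a ha,
    ZS_ins G hw K (fun _ h => h) (fun y hy => ⟨fun _ => hy, hKw y⟩) hK _ rfl]

lemma ZS_one (p : V) : ZS (EE G {p}) = 1 := by
  have := ZS_ins G (notMem_empty p) ∅ (by simp) (by simp) (by simp) 0 rfl
  rw [ZS_nil] at this
  simpa using this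

lemma ZS_two {p r : V} (h : G.Adj r p) : ZS (EE G {r, p}) = 1 - X := by
  have := ZS_ins G (S := {p}) (v := r) (by simp [h.ne]) {p} (by simp) (by simp [h]) (by simp) 1 rfl
  rw [ZS_one] at this
  simpa using this

lemma twin_val {p q r s w : V} (pq : G.Adj p q) (qr : G.Adj q r) (rs : G.Adj r s) (sp : G.Adj s p)
    (pr : p ≠ r) (qs : q ≠ s) (npr : ¬ G.Adj p r) (nqs : ¬ G.Adj q s) (wq : w ≠ q) (ws : w ≠ s)
    (wp : G.Adj w p) (wr : G.Adj w r) (a b : ℕ)
    (ha : (G.Adj q w ∧ a = 1) ∨ (¬ G.Adj q w ∧ a = 0))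
    (hb : (G.Adj s w ∧ b = 1) ∨ (¬ G.Adj s w ∧ b = 0)) :
    ZS (EE G {s, q, w, r, p}) = (1 - X) * (1 - 2 * X) * (1 - ((2 + a : ℕ) : ℚ⟦X⟧) * X) *
      (1 - ((2 + b : ℕ) : ℚ⟦X⟧) * X) + X * ((1 - X) * (1 - ((1 + a : ℕ) : ℚ⟦X⟧) * X) *
      (1 - ((1 + b : ℕ) : ℚ⟦X⟧) * X)) := by
  let H : SimpleGraph V :=
    { Adj := fun x y => G.Adj x y ∨ (x = p ∧ y = r) ∨ (x = r ∧ y = p)
      symm := ⟨fun x y h => by
        rcases h with h | h | h
        exacts [Or.inl h.symm, Or.inr (Or.inr h.symm), Or.inr (Or.inl h.symm)]⟩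
      loopless := ⟨fun x h => by
        rcases h with h | h | h
        exacts [G.irrefl h, pr (h.1.symm.trans h.2), pr (h.2.symm.trans h.1)]⟩ }
  have hH : ∀ x y, H.Adj x y ↔ G.Adj x y ∨ (x = p ∧ y = r) ∨ (x = r ∧ y = p) := fun _ _ => Iff.rfl
  have : DecidableRel H.Adj := fun x y => Classical.propDecidable _
  have hH' : ∀ x y, x ≠ p → x ≠ r → (H.Adj x y ↔ G.Adj x y) := fun x y h1 h2 => by
    rw [hH]; simp [h1, h2]
  have qp := pq.ne'
  have sr := rs.ne'
  have e1 : ({s, q, w, r, p} : Finset V).erase r = {s, q, w, p} := by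
    rw [erase_insert_of_ne sr, erase_insert_of_ne qr.ne, erase_insert_of_ne wr.ne,
      erase_insert (by simp [pr.symm])]
  rw [ZS_twin G H (u := p) (v := r) (by simp) (by simp) pr npr hH (fun y hy h => by
      simp only [mem_insert, mem_singleton] at hy
      rcases hy with rfl | rfl | rfl | rfl | rfl
      exacts [sp.symm, pq, wp.symm, absurd h G.irrefl, absurd h.symm npr]), e1,
    cone G (K := {p}) (by simp [wp.ne]) (by simp [qp]) (by simp [sp.ne]) wq.symm ws.symm qs.symm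
      (by simp) (by simp [wp]) (by simp [pq.symm]) (by simp [sp]) (fun h => nqs h.symm) a b ha hb,
    cone H (K := {r, p}) (by simp [wp.ne, wr.ne]) (by simp [qp, qr.ne]) (by simp [sp.ne, sr])
      wq.symm ws.symm qs.symm (by simp [hH]) (by simp [hH, wp, wr]) (by simp [hH, pq.symm, qr])
      (by simp [hH, sp, rs.symm]) (by rw [hH' _ _ sp.ne sr]; exact fun h => nqs h.symm) a b
      (by rw [hH' _ _ qp qr.ne]; exact ha) (by rw [hH' _ _ sp.ne sr]; exact hb),
    ZS_one, ZS_two H (Or.inr (Or.inr ⟨rfl, rfl⟩)), card_pair pr.symm, card_singleton]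
  push_cast
  ring

end Pool.Agent.FS.FourHole
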