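import Pool.Agent.FS.FourHole.B

open Finset PowerSeries
open Pool.Agent.Lib.MP_8cb124_co

namespace Pool.Agent.FS.FourHole

variable {V : Type} [Fintype V] [DecidableEq V] (G : SimpleGraph V) [DecidableRel G.Adj]

/-- y has two distinct non-adjacent neighbours in T -/
def Opp (T : Finset V) (y : V) : Prop :=
  ∃ a ∈ T, ∃ b ∈ T, G.Adj y a ∧ G.Adj y b ∧ a ≠ b ∧ ¬ G.Adj a b

open Classical in
/-- weight of an outside vertex -/
noncomputable def om (T : Finset V) (y : V) : ℕ :=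
  (if Opp G T y then 1 else 0) + 2 * (if 3 ≤ (NS G T y).card then 1 else 0) +
    6 * (if 4 ≤ (NS G T y).card then 1 else 0)

open Classical in
/-- charge sent to a hole -/
noncomputable def Wt (T : Finset V) (y : V) : ℚ := if Hole G T then 4 / 3 * (om G T y : ℚ) else 0

lemma Wt_nonneg (T : Finset V) (y : V) : 0 ≤ Wt G T y := by
  rw [Wt]; split_ifs <;> positivity

lemma D0 {T : Finset V} {v : V} (h : Simp G T v) (h4 : T.card = 4) (y : V) :
    0 ≤ Wt G T y + g4 G T := by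
  rw [g4_simp G h h4, add_zero]; exact Wt_nonneg G T y

lemma D2 {T : Finset V} {y : V} (h : Hole G T) (h4 : T.card = 4) (k : ℕ) (hk : k ≤ om G T y) :
    4 / 3 * (k : ℚ) - 6 ≤ Wt G T y + g4 G T := by
  have : (k : ℚ) ≤ om G T y := by exact_mod_cast hk
  rw [g4_hole4 G h h4, Wt, if_pos h]; linarith

lemma D1 {T : Finset V} {y : V} (h4 : T.card = 4) (k : ℕ) (hk : k ≤ om G T y) (hk4 : k ≤ 4) :
    4 / 3 * (k : ℚ) - 6 ≤ Wt G T y + g4 G T := by
  by_cases h : Hole G T
  · exact D2 G h h4 k hk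
  · have : (k : ℚ) ≤ 4 := by exact_mod_cast hk4
    rw [g4_SE G (SE_four G h h4.le) h4.le, Wt, if_neg h]; linarith

lemma om1 {T : Finset V} {y : V} (h : Opp G T y) : 1 ≤ om G T y := by
  rw [om, if_pos h]; omega

lemma om3 {T : Finset V} {y a b c : V} (h : Opp G T y) (ha : a ∈ T) (hb : b ∈ T) (hc : c ∈ T)
    (ya : G.Adj y a) (yb : G.Adj y b) (yc : G.Adj y c) (ab : a ≠ b) (ac : a ≠ c) (bc : b ≠ c) :
    3 ≤ om G T y := by
  have h1 : ({a, b, c} : Finset V).card ≤ (NS G T y).card := card_le_card fun x hx => by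
    simp only [mem_insert, mem_singleton] at hx
    rw [mem_NS]
    rcases hx with rfl | rfl | rfl
    exacts [⟨ha, ya⟩, ⟨hb, yb⟩, ⟨hc, yc⟩]
  rw [card_eq_three.mpr ⟨a, b, c, ab, ac, bc, rfl⟩] at h1
  rw [om, if_pos h, if_pos h1]; omega

lemma om9 {T : Finset V} {y : V} (h : Opp G T y) (h4 : T.card = 4) (hT : ∀ x ∈ T, G.Adj y x) :
    9 ≤ om G T y := by
  have h1 : T.card ≤ (NS G T y).card := card_le_card fun x hx => (mem_NS G).mpr ⟨hx, hT x hx⟩
  rw [om, if_pos h, if_pos (by omega), if_pos (by omega)]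

lemma simp_of {T : Finset V} {v : V} (hv : v ∈ T) (x y : V) (hxy : G.Adj x y)
    (h : ∀ z ∈ T, G.Adj v z → z = x ∨ z = y) : Simp G T v := by
  refine ⟨hv, fun a ha b hb h1 h2 hab => ?_⟩
  rcases h a ha h1 with h3 | h3 <;> rcases h b hb h2 with h4 | h4
  · exact absurd (h3.trans h4.symm) hab
  · rw [h3, h4]; exact hxy
  · rw [h3, h4]; exact hxy.symm
  · exact absurd (h3.trans h4.symm) hab

lemma twin_bound {S : Finset V} {p q r s w : V} (e : S = {s, q, w, r, p}) (h5 : S.card = 5)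
    (pq : G.Adj p q) (qr : G.Adj q r) (rs : G.Adj r s) (sp : G.Adj s p)
    (pr : p ≠ r) (qs : q ≠ s) (npr : ¬ G.Adj p r) (nqs : ¬ G.Adj q s) (wq : w ≠ q) (ws : w ≠ s)
    (wp : G.Adj w p) (wr : G.Adj w r) (hh : Hole G (S.erase w)) :
    mob (g4 G) S ≤ ∑ y ∈ S, Wt G (S.erase y) y := by
  have hm : ∀ x, x ∈ S ↔ x = s ∨ x = q ∨ x = w ∨ x = r ∨ x = p := fun x => by
    simp only [e, mem_insert, mem_singleton]
  have hsum : ∀ f : V → ℚ, ∑ y ∈ S, f y = f s + (f q + (f w + (f r + f p))) := fun f => by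
    rw [e, sum_insert (by simp [qs.symm, ws.symm, rs.ne', sp.ne]),
      sum_insert (by simp [wq.symm, qr.ne, pq.ne']), sum_insert (by simp [wr.ne, wp.ne]),
      sum_insert (by simp [pr.symm]), sum_singleton]
  have ms : s ∈ S := by simp [hm]
  have mq : q ∈ S := by simp [hm]
  have mw : w ∈ S := by simp [hm]
  have mr : r ∈ S := by simp [hm]
  have mp : p ∈ S := by simp [hm]
  have hc : ∀ y ∈ S, (S.erase y).card = 4 := fun y hy => by rw [card_erase_of_mem hy, h5]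
  have dp := D0 G (simp_of G (T := S.erase p) (v := q) (mem_erase.mpr ⟨pq.ne', mq⟩) w r wr
    fun z hz h => by
      obtain ⟨h1, h2⟩ := mem_erase.mp hz
      rcases (hm z).mp h2 with h3 | h3 | h3 | h3 | h3
      exacts [absurd (h3 ▸ h) nqs, absurd h3 h.ne', Or.inl h3, Or.inr h3, absurd h3 h1])
    (hc p mp) p
  have dr := D0 G (simp_of G (T := S.erase r) (v := q) (mem_erase.mpr ⟨qr.ne, mq⟩) w p wp
    fun z hz h => by
      obtain ⟨h1, h2⟩ := mem_erase.mp hz
      rcases (hm z).mp h2 with h3 | h3 | h3 | h3 | h3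
      exacts [absurd (h3 ▸ h) nqs, absurd h3 h.ne', Or.inl h3, absurd h3 h1, Or.inr h3])
    (hc r mr) r
  have dq : G.Adj s w → 0 ≤ Wt G (S.erase q) q + g4 G (S.erase q) := fun sw =>
    D0 G (simp_of G (T := S.erase q) (v := p) (mem_erase.mpr ⟨pq.ne, mp⟩) s w sw
      fun z hz h => by
        obtain ⟨h1, h2⟩ := mem_erase.mp hz
        rcases (hm z).mp h2 with h3 | h3 | h3 | h3 | h3
        exacts [Or.inl h3, absurd h3 h1, Or.inr h3, absurd (h3 ▸ h) npr, absurd h3 h.ne'])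
      (hc q mq) q
  have ds : G.Adj q w → 0 ≤ Wt G (S.erase s) s + g4 G (S.erase s) := fun qw =>
    D0 G (simp_of G (T := S.erase s) (v := p) (mem_erase.mpr ⟨sp.ne', mp⟩) q w qw
      fun z hz h => by
        obtain ⟨h1, h2⟩ := mem_erase.mp hz
        rcases (hm z).mp h2 with h3 | h3 | h3 | h3 | h3
        exacts [absurd h3 h1, Or.inl h3, Or.inr h3, absurd (h3 ▸ h) npr, absurd h3 h.ne'])
      (hc s ms) s
  have op : ∀ y, G.Adj y p → G.Adj y r → Opp G (S.erase y) y := fun y h1 h2 =>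
    ⟨p, mem_erase.mpr ⟨h1.ne', mp⟩, r, mem_erase.mpr ⟨h2.ne', mr⟩, h1, h2, pr, npr⟩
  have o3 : ∀ y z, z ∈ S → G.Adj y p → G.Adj y r → G.Adj y z → G.Adj z p → G.Adj z r →
      3 ≤ om G (S.erase y) y := fun y z hz h1 h2 h3 h4 h5 =>
    om3 G (op y h1 h2) (mem_erase.mpr ⟨h1.ne', mp⟩) (mem_erase.mpr ⟨h2.ne', mr⟩)
      (mem_erase.mpr ⟨h3.ne', hz⟩) h1 h2 h3 pr h4.ne' h5.ne'
  have tv := twin_val G pq qr rs sp pr qs npr nqs wq ws wp wr
  rw [← e] at tv
  rw [mob_five h5 fun B _ h => g4_small G h, sub_le_iff_le_add, ← sum_add_distrib, hsum]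
  by_cases a : G.Adj q w <;> by_cases b : G.Adj s w
  · have v : g4 G S = 6 := by
      rw [g4, LL, Lam_poly _ _ _ _ (-8) 24 (-31) 14 0 _ (by
        rw [tv 1 1 (Or.inl ⟨a, rfl⟩) (Or.inl ⟨b, rfl⟩)]; push_cast; ring)]
      norm_num
    have := D2 G hh (hc w mw) 9 (om9 G (op w wp wr) (hc w mw) fun z hz => by
      obtain ⟨h1, h2⟩ := mem_erase.mp hz
      rcases (hm z).mp h2 with h3 | h3 | h3 | h3 | h3
      exacts [h3 ▸ b.symm, h3 ▸ a.symm, absurd h3 h1, h3 ▸ wr, h3 ▸ wp])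
    have := dq b
    have := ds a
    push_cast at *
    linarith
  · have v : g4 G S = -4 := by
      rw [g4, LL, Lam_poly _ _ _ _ (-7) 19 (-23) 10 0 _ (by
        rw [tv 1 0 (Or.inl ⟨a, rfl⟩) (Or.inr ⟨b, rfl⟩)]; push_cast; ring)]
      norm_num
    have := D1 G (hc w mw) 3 (o3 w q mq wp wr a.symm pq.symm qr) (by omega)
    have := D1 G (hc q mq) 3 (o3 q w mw pq.symm qr a wp wr) (by omega)
    have := ds a
    push_cast at *
    linarith
  · have v : g4 G S = -4 := by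
      rw [g4, LL, Lam_poly _ _ _ _ (-7) 19 (-23) 10 0 _ (by
        rw [tv 0 1 (Or.inr ⟨a, rfl⟩) (Or.inl ⟨b, rfl⟩)]; push_cast; ring)]
      norm_num
    have := D1 G (hc w mw) 3 (o3 w s ms wp wr b.symm sp rs.symm) (by omega)
    have := D1 G (hc s ms) 3 (o3 s w mw sp rs.symm b wp wr) (by omega)
    have := dq b
    push_cast at *
    linarith
  · have v : g4 G S = -14 := by
      rw [g4, LL, Lam_poly _ _ _ _ (-6) 15 (-17) 7 0 _ (by
        rw [tv 0 0 (Or.inr ⟨a, rfl⟩) (Or.inr ⟨b, rfl⟩)]; push_cast; ring)]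
      norm_num
    have := D1 G (hc w mw) 1 (om1 G (op w wp wr)) (by omega)
    have := D1 G (hc q mq) 1 (om1 G (op q pq.symm qr)) (by omega)
    have := D1 G (hc s ms) 1 (om1 G (op s sp rs.symm)) (by omega)
    push_cast at *
    linarith

lemma hole4 {T : Finset V} (h : Hole G T) (h4 : T.card = 4) : ∃ p q r s, T = {p, q, r, s} ∧
    G.Adj p q ∧ G.Adj q r ∧ G.Adj r s ∧ G.Adj s p ∧ p ≠ r ∧ q ≠ s ∧ ¬ G.Adj p r ∧ ¬ G.Adj q s := by
  obtain ⟨l, c, h1, rfl⟩ := h
  rw [h1.card] at h4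
  subst h4
  refine ⟨c 0, c 1, c 2, c 3, ?_, h1.adj 0 (by omega), h1.adj 1 (by omega), h1.adj 2 (by omega),
    h1.close ▸ h1.adj 3 (by omega), h1.inj 0 2 (by omega) (by omega),
    h1.inj 1 3 (by omega) (by omega), fun h => ?_, fun h => ?_⟩
  · ext x
    simp only [mem_image, mem_range, mem_insert, mem_singleton]
    constructor
    · rintro ⟨i, hi, rfl⟩
      interval_cases i <;> simp
    · rintro (rfl | rfl | rfl | rfl)
      exacts [⟨0, by omega, rfl⟩, ⟨1, by omega, rfl⟩, ⟨2, by omega, rfl⟩, ⟨3, by omega, rfl⟩]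
  · have := h1.chord 0 2 (by omega) (by omega) h; omega
  · have := h1.chord 1 3 (by omega) (by omega) h; omega

lemma five_bound {S : Finset V} (h5 : S.card = 5) :
    mob (g4 G) S ≤ ∑ y ∈ S, Wt G (S.erase y) y := by
  have h0 : 0 ≤ ∑ y ∈ S, Wt G (S.erase y) y := sum_nonneg fun y _ => Wt_nonneg G _ _
  by_cases hs : ∃ v, Simp G S v
  · obtain ⟨v, hv⟩ := hs
    exact (mob_g4_simp G hv h5).trans h0
  by_cases h : ∃ T ⊆ S, Hole G T ∧ T.card = 4
  · obtain ⟨T, hT, h1, h4⟩ := h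
    obtain ⟨w, hw, rfl⟩ := exists_eq_insert_iff.mpr ⟨hT, by omega⟩
    have hh : Hole G ((insert w T).erase w) := by rwa [erase_insert hw]
    obtain ⟨p, q, r, s, rfl, pq, qr, rs, sp, pr, qs, npr, nqs⟩ := hole4 G h1 h4
    simp only [mem_insert, mem_singleton, not_or] at hw
    by_cases h2 : G.Adj w p ∧ G.Adj w r
    · exact twin_bound G (by ext x; simp only [mem_insert, mem_singleton]; tauto) h5 pq qr rs sp pr
        qs npr nqs hw.2.1 hw.2.2.2 h2.1 h2.2 hh
    by_cases h3 : G.Adj w q ∧ G.Adj w s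
    · exact twin_bound G (by ext x; simp only [mem_insert, mem_singleton]; tauto) h5 qr rs sp pq qs
        pr.symm nqs (fun h => npr h.symm) hw.2.2.1 hw.1 h3.1 h3.2 hh
    refine absurd ⟨w, mem_insert_self _ _, fun a ha b hb h6 h7 hab => ?_⟩ hs
    have ha' := (mem_insert.mp ha).resolve_left h6.ne'
    have hb' := (mem_insert.mp hb).resolve_left h7.ne'
    simp only [mem_insert, mem_singleton] at ha' hb'
    rcases ha' with rfl | rfl | rfl | rfl <;> rcases hb' with rfl | rfl | rfl | rfl <;>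
      first
        | exact absurd rfl hab
        | assumption
        | exact G.adj_symm ‹_›
        | exact (h2 ⟨h6, h7⟩).elim
        | exact (h2 ⟨h7, h6⟩).elim
        | exact (h3 ⟨h6, h7⟩).elim
        | exact (h3 ⟨h7, h6⟩).elim
  · have h1 : ∀ T ⊆ S, Hole G T → T = S := fun T hT h1 => by
      have h2 := h1.four
      have h3 : T.card ≠ 4 := fun h3 => h ⟨T, hT, h1, h3⟩
      exact eq_of_subset_of_card_le hT (by omega)
    have h2 : Hole G S := by
      by_contra h2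
      exact hs (SE_of_holefree (fun T hT h3 => h2 (h1 T hT h3 ▸ h3)) S subset_rfl
        (card_pos.mp (by omega)))
    rw [mob_top, g4_hole5 G h2 h5]
    · linarith
    · intro B hB hne
      have h3 := card_lt_card (hB.ssubset_of_ne hne)
      refine g4_SE G (SE_of_holefree fun T hT h4 => ?_) (by omega)
      have h6 := card_le_card hT
      rw [h1 T (hT.trans hB) h4] at h6
      omega

end Pool.Agent.FS.FourHole
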