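import Pool.Agent.FS.FourHole.C

open Finset PowerSeries
open Pool.Agent.Lib.MP_8cb124_co

namespace Pool.Agent.FS.FourHole

variable {V : Type} [Fintype V] [DecidableEq V] (G : SimpleGraph V) [DecidableRel G.Adj]

lemma dc (W : Finset V → V → ℚ) :
    ∑ S ∈ (univ : Finset V).powerset.filter (fun S => S.card = 5), ∑ y ∈ S, W (S.erase y) y =
    ∑ Q ∈ (univ : Finset V).powerset.filter (fun S => S.card = 4), ∑ w ∈ Qᶜ, W Q w := by
  rw [sum_sigma', sum_sigma']
  refine sum_nbij' (fun x => ⟨x.1.erase x.2, x.2⟩) (fun x => ⟨insert x.2 x.1, x.2⟩) ?_ ?_ ?_ ?_ ?_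
  · rintro ⟨S, y⟩ h
    simp only [mem_sigma, mem_filter, mem_powerset, subset_univ, true_and, mem_compl] at h ⊢
    exact ⟨by rw [card_erase_of_mem h.2, h.1], notMem_erase _ _⟩
  · rintro ⟨S, y⟩ h
    simp only [mem_sigma, mem_filter, mem_powerset, subset_univ, true_and, mem_compl] at h ⊢
    exact ⟨by rw [card_insert_of_notMem h.2, h.1], mem_insert_self _ _⟩
  · rintro ⟨S, y⟩ h
    simp only [mem_sigma] at h
    simp only [insert_erase h.2]
  · rintro ⟨S, y⟩ h
    simp only [mem_sigma, mem_compl] at h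
    simp only [erase_insert h.2]
  · rintro ⟨S, y⟩ _
    rfl

lemma no_hole (H : ∀ Q, Hole G Q → Q.card = 4 → ∑ w ∈ Qᶜ, om G Q w ≤ 4) (h0 : g4 G univ = 0)
    (Q : Finset V) (hQ : Hole G Q) : Q.card ≠ 4 := by
  intro h4
  have h1 : ∑ S ∈ (univ : Finset V).powerset, mob (g4 G) S ≤ ∑ S ∈ (univ : Finset V).powerset,
      ((if S.card = 4 then g4 G S else 0) +
        if S.card = 5 then ∑ y ∈ S, Wt G (S.erase y) y else 0) := by
    refine sum_le_sum fun S _ => ?_
    rcases lt_trichotomy S.card 5 with h | h | h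
    · rw [mob_g4_four G (by omega), if_neg h.ne, add_zero]
      split_ifs with h2
      · exact le_rfl
      · exact (g4_small G (by omega)).le
    · rw [if_neg (by omega), if_pos h, zero_add]
      exact five_bound G h
    · rw [if_neg (by omega), if_neg (by omega), add_zero]
      exact ((Lam_mob _ _ _ _ S (LL G)).trans (Lam_dvd5 _ _ _ _
        ((pow_dvd_pow X (by omega)).trans (dvd_mob_LL G S)))).le
  rw [mob_inv, h0, sum_add_distrib, ← sum_filter, ← sum_filter, dc, ← sum_add_distrib] at h1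
  have h2 : ∀ T, Hole G T → T.card = 4 → g4 G T + ∑ w ∈ Tᶜ, Wt G T w < 0 := fun T hT h3 => by
    have h5 : ((∑ w ∈ Tᶜ, om G T w : ℕ) : ℚ) ≤ 4 := by exact_mod_cast H T hT h3
    simp only [g4_hole4 G hT h3, Wt, if_pos hT, ← mul_sum]
    push_cast at h5
    linarith
  refine absurd h1 (not_le.mpr (sum_neg' (fun T hT => ?_) ⟨Q, by simp [h4], h2 Q hQ h4⟩))
  have h3 := (mem_filter.mp hT).2
  by_cases h : Hole G T
  · exact (h2 T h h3).le
  · simp only [g4_SE G (SE_four G h h3.le) h3.le, Wt, if_neg h, sum_const_zero, add_zero, le_refl]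

lemma p3_zero (k : ℕ) (hk : k < 3) : Lam 2 (-3) 1 0 (lam k) = 0 := by
  rw [Lam_lam]; interval_cases k <;> norm_num

lemma k4free (hno : ∀ Q, Hole G Q → Q.card ≠ 4) (h0 : Lam 2 (-3) 1 0 (LL G univ) = 0) :
    G.CliqueFree 4 := by
  intro t ht
  rw [← mob_inv univ fun B => Lam 2 (-3) 1 0 (LL G B)] at h0
  refine absurd h0 (sum_neg' (fun S _ => ?_) ⟨t, by simp, ?_⟩).ne
  · rcases lt_or_ge S.card 5 with h | h
    · rcases S.eq_empty_or_nonempty with rfl | hne
      · rw [mob_empty, LL_nil, Lam_zero]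
      · obtain ⟨v, hv⟩ := SE_four G (fun h1 => hno S h1 (by have := h1.four; omega)) (by omega) S
          subset_rfl hne
        have h2 := NS_lt G hv.1
        rw [mob_simp G _ _ _ _ hv fun k hk => p3_zero k (by omega), Lam_lam]
        generalize (NS G S v).card = d at *
        have h3 : d < 4 := by omega
        interval_cases d <;> norm_num
    · exact ((Lam_mob _ _ _ _ S (LL G)).trans (Lam_dvd4 _ _ _
        ((pow_dvd_pow X (by omega)).trans (dvd_mob_LL G S)))).le
  · have h4 := ht.card_eq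
    obtain ⟨v, hv⟩ := card_pos.mp (by omega : 0 < t.card)
    have h1 : NS G t v = t.erase v := by
      ext y
      rw [mem_NS, mem_erase]
      exact ⟨fun h => ⟨h.2.ne', h.1⟩, fun h => ⟨h.2, ht.isClique hv h.2 h.1.symm⟩⟩
    rw [mob_simp G _ _ _ _ (v := v) ⟨hv, fun a ha b hb _ _ hab => ht.isClique ha hb hab⟩
      fun k hk => p3_zero k (by omega), h1, card_erase_of_mem hv, h4, Lam_lam]
    norm_num

lemma Sq_zero {n : ℕ} [NeZero n] [DecidableRel (Sq n).Adj] (hn : 43 ≤ n) (a b c d : ℚ)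
    (h1 : Lam a b c d (lam 1) = 0) (h2 : Lam a b c d (lam 2) = 0) :
    Lam a b c d (LL (Sq n) univ) = 0 := by
  have h3 := del_dvd (Sq n) (Sq_K4f (by omega)) (W := univ) (j := 6) (by omega) fun S _ hS =>
    SE_of_holefree fun T hT h => by
      have := (Sq_hole_card (by omega) h).1
      have := card_le_card hT
      omega
  have e : ((6 : ℕ) : ℚ⟦X⟧) * LL (Sq n) univ = del (Sq n) univ +
      ((3 * m2 (Sq n) univ : ℕ) : ℚ⟦X⟧) * lam 1 + ((t6 (Sq n) univ : ℕ) : ℚ⟦X⟧) * lam 2 -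
      ((2 * t6 (Sq n) univ : ℕ) : ℚ⟦X⟧) * lam 1 := by
    rw [del]; push_cast; ring
  have h4 := congrArg (Lam a b c d) e
  rw [Lam_sub, Lam_add, Lam_add, Lam_nat, Lam_nat, Lam_nat, Lam_nat, h1, h2,
    Lam_dvd5 a b c d h3] at h4
  push_cast at h4
  linarith

lemma cnt (s : Finset V) (P : V → Prop) [DecidablePred P] (A : Set V)
    (h : ∀ w ∈ s, P w → w ∈ A) : ∑ w ∈ s, (if P w then 1 else 0) ≤ A.ncard := by
  rw [← card_filter, ← Set.ncard_coe_finset]
  exact Set.ncard_le_ncard (fun w hw => by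
    have := mem_filter.mp (mem_coe.mp hw)
    exact h w this.1 this.2) (Set.toFinite _)

theorem core {n : ℕ} (hn : 43 ≤ n) (V : Type) [Finite V] (G : SimpleGraph V)
    (hG : ∀ p q r s : V, G.Adj p q → G.Adj q r → G.Adj r s → G.Adj s p → p ≠ r → q ≠ s →
      ¬ G.Adj p r → ¬ G.Adj q s →
      {w | w ∉ ({p, q, r, s} : Set V) ∧
          ((G.Adj w p ∧ G.Adj w r) ∨ (G.Adj w q ∧ G.Adj w s))}.ncard +
        2 * {w | 3 ≤ (({p, q, r, s} : Set V) ∩ G.neighborSet w).ncard}.ncard +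
        6 * {w | 4 ≤ (({p, q, r, s} : Set V) ∩ G.neighborSet w).ncard}.ncard ≤ 4)
    (h : ∀ k : ℕ, Nat.card (G.Coloring (Fin k)) = Nat.card ((Sq n).Coloring (Fin k))) :
    Nonempty (G ≃g Sq n) := by
  classical
  have : NeZero n := ⟨by omega⟩
  have := Fintype.ofFinite V
  obtain ⟨-, h2⟩ := Zp_transfer (EE_ne G univ) (EE_ne (Sq n) univ) fun x => by
    rw [← card_coloring, ← card_coloring, h]
  have hL : LL G univ = LL (Sq n) univ := by rw [LL, LL, ZS, ZS, h2]
  refine main hn V G (Or.inr (k4free G (no_hole G (fun Q hQ h4 => ?_) ?_) ?_)) h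
  · obtain ⟨p, q, r, s, rfl, pq, qr, rs, sp, pr, qs, npr, nqs⟩ := hole4 G hQ h4
    have e : ∀ w, (NS G {p, q, r, s} w).card =
        (({p, q, r, s} : Set V) ∩ G.neighborSet w).ncard := fun w => by
      rw [← Set.ncard_coe_finset]
      exact congrArg Set.ncard (Set.ext fun x => by simp [mem_NS])
    simp only [om, sum_add_distrib, ← mul_sum]
    refine le_trans (add_le_add (add_le_add (cnt _ _ _ fun w hw h1 => ?_)
      (Nat.mul_le_mul_left _ (cnt _ _ _ fun w _ h1 => ?_)))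
      (Nat.mul_le_mul_left _ (cnt _ _ _ fun w _ h1 => ?_))) (hG p q r s pq qr rs sp pr qs npr nqs)
    · refine ⟨by simpa using hw, ?_⟩
      obtain ⟨a, ha, b, hb, h6, h7, hab, h8⟩ := h1
      simp only [mem_insert, mem_singleton] at ha hb
      rcases ha with rfl | rfl | rfl | rfl <;> rcases hb with rfl | rfl | rfl | rfl <;>
        first
          | exact absurd rfl hab
          | exact Or.inl ⟨h6, h7⟩
          | exact Or.inl ⟨h7, h6⟩
          | exact Or.inr ⟨h6, h7⟩
          | exact Or.inr ⟨h7, h6⟩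
          | contradiction
          | exact (h8 (G.adj_symm ‹_›)).elim
    · rwa [e] at h1
    · rwa [e] at h1
  · rw [g4, hL]
    exact Sq_zero hn _ _ _ _ (p4_zero 1 (by omega)) (p4_zero 2 (by omega))
  · rw [hL]
    exact Sq_zero hn _ _ _ _ (p3_zero 1 (by omega)) (p3_zero 2 (by omega))

end Pool.Agent.FS.FourHole
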